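import Pool.Agent.Helper57.TW.Goals
import Pool.Agent.Helper75.LG.PH

/-!
# E2: `∑ 1/φ(d)` over squarefree `d ≤ x` is at most a power of `log x`
-/

set_option autoImplicit false

open Finset Filter Topology

namespace Pool.Agent.Helper56.TW

theorem one_div_totient {d : ℕ} (hd : Squarefree d) :
    1 / (Nat.totient d : ℝ) = ∏ p ∈ d.primeFactors, (1 / ((p : ℝ) - 1)) := by
  have h0 : d ≠ 0 := hd.ne_zero
  have h := Pool.Agent.Helper75.LG.ratio_eq d h0
  have hd' : (d : ℝ) ≠ 0 := Nat.cast_ne_zero.2 h0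
  have h1 : (d : ℝ) = ∏ p ∈ d.primeFactors, (p : ℝ) := by
    rw [← Nat.cast_prod, Nat.prod_primeFactors_of_squarefree hd]
  have h2 : 1 / (Nat.totient d : ℝ) = ((d : ℝ) / (Nat.totient d : ℝ)) / d := by
    field_simp
  rw [h2, h]
  rw [show (∏ p ∈ d.primeFactors, (1 - 1 / (p : ℝ))⁻¹) / (d : ℝ)
    = (∏ p ∈ d.primeFactors, (1 - 1 / (p : ℝ))⁻¹) / ∏ p ∈ d.primeFactors, (p : ℝ) from by rw [← h1]]
  rw [← Finset.prod_div_distrib]
  refine Finset.prod_congr rfl fun p hp => ?_
  have hp2 : (2 : ℝ) ≤ p := by exact_mod_cast (Nat.prime_of_mem_primeFactors hp).two_le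
  have a1 : (p : ℝ) ≠ 0 := by linarith
  have a2 : (p : ℝ) - 1 ≠ 0 := by
    intro h
    linarith
  have a3 : (1 : ℝ) - 1 / p ≠ 0 := by
    rw [one_sub_div a1]
    exact div_ne_zero a2 a1
  rw [one_sub_div a1, inv_div]
  field_simp

theorem primorial_ratio (x : ℕ) :
    (primorial x : ℝ) / (Nat.totient (primorial x) : ℝ)
      = ∑ t ∈ (primorial x).primeFactors.powerset, ∏ p ∈ t, (1 / ((p : ℝ) - 1)) := by
  rw [Pool.Agent.Helper75.LG.ratio_eq _ (primorial_pos x).ne', ← Finset.prod_one_add]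
  refine Finset.prod_congr rfl fun p hp => ?_
  have hp2 : (2 : ℝ) ≤ p := by exact_mod_cast (Nat.prime_of_mem_primeFactors hp).two_le
  have a1 : (p : ℝ) ≠ 0 := by linarith
  have a2 : (p : ℝ) - 1 ≠ 0 := by
    intro h
    linarith
  rw [one_sub_div a1, inv_div]
  field_simp
  ring

theorem e2 : Pool.Agent.Helper57.TW.StmtE2 := by
  obtain ⟨C, hC, h⟩ := Pool.Agent.Helper75.LG.ph
  have ht : Tendsto (fun n : ℕ => Real.log n) atTop atTop :=
    Real.tendsto_log_atTop.comp tendsto_natCast_atTop_atTop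
  obtain ⟨x1, hx1⟩ := (ht.eventually_ge_atTop C).exists_forall_of_atTop
  refine ⟨2, max x1 2, fun x hx S hS => ?_⟩
  have hxx1 : x1 ≤ x := le_trans (le_max_left _ _) hx
  have hx2 : 2 ≤ x := le_trans (le_max_right _ _) hx
  have hlogC : C ≤ Real.log x := hx1 x hxx1
  have hlog0 : 0 ≤ Real.log x := by linarith
  have hinj : Set.InjOn (fun d : ℕ => d.primeFactors) S := by
    intro a ha b hb hab
    have ha' := Nat.prod_primeFactors_of_squarefree (hS a ha).1
    have hb' := Nat.prod_primeFactors_of_squarefree (hS b hb).1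
    have hab' : a.primeFactors = b.primeFactors := hab
    rw [← ha', ← hb', hab']
  have h1 : ∑ d ∈ S, 1 / (Nat.totient d : ℝ)
      = ∑ t ∈ S.image (fun d : ℕ => d.primeFactors), ∏ p ∈ t, (1 / ((p : ℝ) - 1)) := by
    rw [Finset.sum_image hinj]
    exact Finset.sum_congr rfl fun d hd => one_div_totient (hS d hd).1
  have h2 : S.image (fun d : ℕ => d.primeFactors) ⊆ (primorial x).primeFactors.powerset := by
    intro t htS
    obtain ⟨d, hd, rfl⟩ := Finset.mem_image.1 htS
    rw [Finset.mem_powerset]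
    intro p hp
    rw [Nat.mem_primeFactors_of_ne_zero (primorial_pos x).ne']
    have hpp := Nat.prime_of_mem_primeFactors hp
    refine ⟨hpp, (Nat.Prime.dvd_primorial_iff hpp).2 ?_⟩
    exact le_trans (Nat.le_of_mem_primeFactors hp) (hS d hd).2
  have h3 : ∑ d ∈ S, 1 / (Nat.totient d : ℝ)
      ≤ (primorial x : ℝ) / (Nat.totient (primorial x) : ℝ) := by
    rw [h1, primorial_ratio]
    refine Finset.sum_le_sum_of_subset_of_nonneg h2 fun t htS _ => ?_
    refine Finset.prod_nonneg fun p hp => ?_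
    have hp' : p ∈ (primorial x).primeFactors := (Finset.mem_powerset.1 htS) hp
    have hp2 : (2 : ℝ) ≤ p := by exact_mod_cast (Nat.prime_of_mem_primeFactors hp').two_le
    apply div_nonneg zero_le_one
    linarith
  calc ∑ d ∈ S, 1 / (Nat.totient d : ℝ) ≤ C * Real.log x := h3.trans (h x hx2)
    _ ≤ Real.log x * Real.log x := mul_le_mul_of_nonneg_right hlogC hlog0
    _ = Real.log x ^ 2 := by ring

end Pool.Agent.Helper56.TW
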